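import Mathlib

set_option autoImplicit false

namespace Pool.Agent.W_MP_ce417a_nt

/-- The block `y x^(k+1)`. -/
def block {r : ℕ} (y x : Fin r) (k : ℕ) : List (Fin r) := y :: List.replicate (k + 1) x

/-- Concatenation of blocks. -/
def enc {r : ℕ} (y x : Fin r) (L : List ℕ) : List (Fin r) := (L.map (block y x)).flatten

theorem replicate_append_inj {r : ℕ} (x : Fin r) :
    ∀ (a b : ℕ) (s t : List (Fin r)), s.head? ≠ some x → t.head? ≠ some x →
      List.replicate a x ++ s = List.replicate b x ++ t → a = b ∧ s = t := by
  intro a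
  induction a with
  | zero =>
    intro b s t hs ht h
    cases b with
    | zero => exact ⟨rfl, by simpa using h⟩
    | succ b =>
      exfalso
      apply hs
      simp only [List.replicate_zero, List.nil_append] at h
      rw [h]
      simp [List.replicate_succ]
  | succ a ih =>
    intro b s t hs ht h
    cases b with
    | zero =>
      exfalso
      apply ht
      simp only [List.replicate_zero, List.nil_append] at h
      rw [← h]
      simp [List.replicate_succ]
    | succ b =>
      simp only [List.replicate_succ, List.cons_append, List.cons.injEq, true_and] at h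
      obtain ⟨h1, h2⟩ := ih b s t hs ht h
      exact ⟨by rw [h1], h2⟩

theorem enc_head {r : ℕ} (y x : Fin r) (hxy : y ≠ x) (L : List ℕ) :
    (enc y x L).head? ≠ some x := by
  cases L with
  | nil => simp [enc]
  | cons k L => simp [enc, block, hxy]

theorem enc_injective {r : ℕ} (y x : Fin r) (hxy : y ≠ x) : Function.Injective (enc y x) := by
  intro L
  induction L with
  | nil =>
    intro M h
    cases M with
    | nil => rfl
    | cons k M => simp [enc, block] at h
  | cons k L ih =>
    intro M h
    cases M with
    | nil => simp [enc, block] at h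
    | cons k' M =>
      have h' : List.replicate (k + 1) x ++ enc y x L = List.replicate (k' + 1) x ++ enc y x M := by
        simpa [enc, block] using h
      obtain ⟨h1, h2⟩ := replicate_append_inj x _ _ _ _ (enc_head y x hxy L) (enc_head y x hxy M) h'
      rw [ih h2]
      congr 1
      omega

/-- The word attached to a function `σ`. -/
def stdWord {r d : ℕ} (y x : Fin r) (σ : Fin d → Fin d) : List (Fin r) :=
  enc y x (List.ofFn fun i => (σ i : ℕ))

theorem stdWord_injective {r d : ℕ} (y x : Fin r) (hxy : y ≠ x) :
    Function.Injective (stdWord (d := d) y x) := by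
  intro σ τ h
  have h1 := enc_injective y x hxy h
  have h2 := List.ofFn_injective h1
  funext i
  exact Fin.ext (congrFun h2 i)

theorem stdWord_ne_nil {r d : ℕ} (y x : Fin r) (hd : 0 < d) (σ : Fin d → Fin d) :
    stdWord y x σ ≠ [] := by
  obtain ⟨d, rfl⟩ : ∃ e, d = e + 1 := ⟨d - 1, by omega⟩
  intro h
  simp [stdWord, enc, block, List.ofFn_succ] at h

theorem prod_enc {r : ℕ} {A : Type*} [Monoid A] (y x : Fin r) (X : Fin r → A) (L : List ℕ) :
    ((enc y x L).map X).prod = (L.map fun k => X y * X x ^ (k + 1)).prod := by
  induction L with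
  | nil => simp [enc]
  | cons k L ih =>
    have : enc y x (k :: L) = block y x k ++ enc y x L := by simp [enc]
    rw [this, List.map_append, List.prod_append, ih]
    simp [block]

theorem prod_stdWord {r d : ℕ} {A : Type*} [Monoid A] (y x : Fin r) (X : Fin r → A)
    (σ : Fin d → Fin d) :
    ((stdWord y x σ).map X).prod = (List.ofFn fun i => X y * X x ^ ((σ i : ℕ) + 1)).prod := by
  rw [stdWord, prod_enc, List.map_ofFn]
  rfl

/-- The standard identity of degree `d > m ^ 2` holds for `m × m` matrices. -/
theorem standard_identity {m d : ℕ} (hd : m * m < d) (Z : Fin d → Matrix (Fin m) (Fin m) ℝ) :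
    ∑ σ : Equiv.Perm (Fin d), ((Equiv.Perm.sign σ : ℤ) : ℝ) • (List.ofFn fun i => Z (σ i)).prod
      = 0 := by
  have hdep : ¬ LinearIndependent ℝ Z := by
    intro h
    have h1 := h.fintype_card_le_finrank
    simp [Module.finrank_matrix] at h1
    omega
  have h := (MultilinearMap.alternatization
    (MultilinearMap.mkPiAlgebraFin ℝ d (Matrix (Fin m) (Fin m) ℝ))).map_linearDependent Z hdep
  rw [MultilinearMap.alternatization_apply] at h
  rw [← h]
  refine Finset.sum_congr rfl fun σ _ => ?_
  rw [MultilinearMap.domDomCongr_apply, MultilinearMap.mkPiAlgebraFin_apply, Units.smul_def,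
    Int.cast_smul_eq_zsmul]

theorem word_identity {m d r : ℕ} (hd : m * m < d) (y x : Fin r)
    (X : Fin r → Matrix (Fin m) (Fin m) ℝ) :
    ∑ σ : Equiv.Perm (Fin d), ((Equiv.Perm.sign σ : ℤ) : ℝ) • ((stdWord y x σ).map X).prod = 0 := by
  rw [← standard_identity hd fun k : Fin d => X y * X x ^ ((k : ℕ) + 1)]
  refine Finset.sum_congr rfl fun σ _ => ?_
  rw [prod_stdWord]

end Pool.Agent.W_MP_ce417a_nt
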